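import Mathlib
import Pool.Agent.Lib.ChordalGraph
import Pool.Agent.Lib.FarkasLemma

/-!
# Real domination versus domination in chordal graphs (Henning and Kubicki)

For every chordal graph `G`, the real domination number of `G` equals the domination number of `G`
if and only if `G` has a NERD-function.
-/

set_option autoImplicit false

namespace Pool.Agent.Results.MP_24e13c_co.ChordalNERD

open Finset

section Definitions

variable {V : Type*}

/-- `N[v]`, the closed neighbourhood of `v` in `G`. -/
def closedNbhd (G : SimpleGraph V) (v : V) : Set V := {u | u = v ∨ G.Adj v u}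

/-- `G` is chordal: it has no induced cycle of length at least four. -/
def IsChordal (G : SimpleGraph V) : Prop :=
  ∀ n : ℕ, 4 ≤ n → IsEmpty (SimpleGraph.cycleGraph n ↪g G)

variable [Fintype V]

open Classical in
/-- `f(S)`, the sum of the values `f v` over the vertices `v` in `S`. -/
noncomputable def mass (f : V → ℝ) (S : Set V) : ℝ := ∑ v with v ∈ S, f v

/-- `f` is a real dominating function of `G`: `f(N[v]) ≥ 1` for every vertex `v`. -/
def IsRealDominating (G : SimpleGraph V) (f : V → ℝ) : Prop :=
  ∀ v, 1 ≤ mass f (closedNbhd G v)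

/-- `f` is a NERD-function (nonnegative efficient real dominating function) of `G`:
it is nonnegative and `f(N[v]) = 1` for every vertex `v`. -/
def IsNERD (G : SimpleGraph V) (f : V → ℝ) : Prop :=
  (∀ v, 0 ≤ f v) ∧ ∀ v, mass f (closedNbhd G v) = 1

/-- The real domination number of `G`: the infimum in `[-∞, ∞]` of the weights `w(f) = f(V)` of the
real dominating functions `f` of `G`. -/
noncomputable def realDominationNumber (G : SimpleGraph V) : EReal :=
  ⨅ f : {f : V → ℝ // IsRealDominating G f}, ((mass f.1 Set.univ : ℝ) : EReal)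

omit [Fintype V] in
/-- `D` is a dominating set of `G`: every vertex lies in the closed neighbourhood of some `d ∈ D`. -/
def IsDominatingSet (G : SimpleGraph V) (D : Finset V) : Prop :=
  ∀ v, ∃ d ∈ D, v ∈ closedNbhd G d

omit [Fintype V] in
/-- The domination number of `G`: the least cardinality of a dominating set. -/
noncomputable def dominationNumber (G : SimpleGraph V) : ℕ :=
  sInf {k : ℕ | ∃ D : Finset V, IsDominatingSet G D ∧ D.card = k}

end Definitions

section Proofs

variable {V : Type*} [Fintype V]

omit [Fintype V] in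
lemma mem_closedNbhd {G : SimpleGraph V} {u v : V} :
    u ∈ closedNbhd G v ↔ (u = v ∨ G.Adj v u) := Iff.rfl

omit [Fintype V] in
lemma closedNbhd_symm {G : SimpleGraph V} {u v : V} :
    u ∈ closedNbhd G v ↔ v ∈ closedNbhd G u := by
  rw [mem_closedNbhd, mem_closedNbhd, G.adj_comm]
  constructor <;> rintro (h | h) <;> simp [h]

omit [Fintype V] in
lemma self_mem_closedNbhd (G : SimpleGraph V) (v : V) : v ∈ closedNbhd G v := Or.inl rfl

open Classical in
lemma mass_eq (f : V → ℝ) (S : Set V) : mass f S = ∑ v, if v ∈ S then f v else 0 := by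
  rw [mass, Finset.sum_filter]

lemma mass_univ (f : V → ℝ) : mass f Set.univ = ∑ v, f v := by
  simp [mass]

lemma mass_mono {f : V → ℝ} (hf : ∀ v, 0 ≤ f v) {S T : Set V} (h : S ⊆ T) : mass f S ≤ mass f T := by
  classical
  rw [mass, mass]
  refine Finset.sum_le_sum_of_subset_of_nonneg ?_ (fun v _ _ => hf v)
  intro v hv
  simp only [Finset.mem_filter, Finset.mem_univ, true_and] at hv ⊢
  exact h hv

/-- If `S ⊆ T` have the same mass, `f ≥ 0`, then `f` vanishes on `T \ S`. -/
lemma eq_zero_of_mass_eq {f : V → ℝ} (hf : ∀ v, 0 ≤ f v) {S T : Set V} (h : S ⊆ T)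
    (heq : mass f S = mass f T) {x : V} (hxT : x ∈ T) (hxS : x ∉ S) : f x = 0 := by
  classical
  have h1 : mass f S + f x ≤ mass f T := by
    rw [mass, mass]
    have h2 : (∑ v with v ∈ S, f v) + f x = ∑ v ∈ insert x (Finset.univ.filter (fun v => v ∈ S)), f v := by
      rw [Finset.sum_insert (by simp [hxS]), add_comm]
    rw [h2]
    refine Finset.sum_le_sum_of_subset_of_nonneg ?_ (fun v _ _ => hf v)
    intro v hv
    simp only [Finset.mem_insert, Finset.mem_filter, Finset.mem_univ, true_and] at hv ⊢
    rcases hv with rfl | hv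
    · exact hxT
    · exact h hv
  have := hf x
  linarith

/-- The mass of `S` only depends on the part of `S` inside the support. -/
lemma mass_inter_support (f : V → ℝ) (S : Set V) : mass f (S ∩ {v | f v ≠ 0}) = mass f S := by
  classical
  rw [mass_eq, mass_eq]
  refine Finset.sum_congr rfl ?_
  intro v _
  by_cases h : f v = 0
  · simp [h]
  · simp [h]

/-- Double counting: `∑_{v} g(v) f(N[v]) = ∑_v f(v) g(N[v])`. -/
lemma double_count (G : SimpleGraph V) (f g : V → ℝ) :
    ∑ v, g v * mass f (closedNbhd G v) = ∑ v, f v * mass g (closedNbhd G v) := by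
  classical
  simp only [mass_eq, Finset.mul_sum]
  rw [Finset.sum_comm]
  refine Finset.sum_congr rfl (fun v _ => Finset.sum_congr rfl (fun u _ => ?_))
  by_cases h : v ∈ closedNbhd G u
  · have h' : u ∈ closedNbhd G v := closedNbhd_symm.mp h
    simp [h, h', mul_comm]
  · have h' : u ∉ closedNbhd G v := fun h'' => h (closedNbhd_symm.mp h'')
    simp [h, h']

/-- Weak duality. -/
lemma mass_nerd_le {G : SimpleGraph V} {f g : V → ℝ} (hf : IsNERD G f)
    (hg : IsRealDominating G g) : mass f Set.univ ≤ mass g Set.univ := by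
  have h := double_count G f g
  rw [mass_univ, mass_univ]
  calc ∑ v, f v = ∑ v, f v * 1 := by simp
    _ ≤ ∑ v, f v * mass g (closedNbhd G v) :=
        Finset.sum_le_sum (fun v _ => mul_le_mul_of_nonneg_left (hg v) (hf.1 v))
    _ = ∑ v, g v * mass f (closedNbhd G v) := h.symm
    _ = ∑ v, g v := by simp [hf.2]

lemma IsNERD.isRealDominating {G : SimpleGraph V} {f : V → ℝ} (hf : IsNERD G f) :
    IsRealDominating G f := fun v => (hf.2 v).ge

lemma realDominationNumber_eq {G : SimpleGraph V} {f : V → ℝ} (hf : IsNERD G f) :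
    realDominationNumber G = ((mass f Set.univ : ℝ) : EReal) := by
  apply le_antisymm
  · exact iInf_le (fun g : {f : V → ℝ // IsRealDominating G f} => ((mass g.1 Set.univ : ℝ) : EReal))
      ⟨f, hf.isRealDominating⟩
  · refine le_iInf (fun g => ?_)
    exact EReal.coe_le_coe_iff.mpr (mass_nerd_le hf g.2)

lemma exists_dominatingSet (G : SimpleGraph V) :
    ∃ D : Finset V, IsDominatingSet G D ∧ D.card = dominationNumber G := by
  have hne : {k : ℕ | ∃ D : Finset V, IsDominatingSet G D ∧ D.card = k}.Nonempty :=
    ⟨_, Finset.univ, fun v => ⟨v, Finset.mem_univ _, self_mem_closedNbhd G v⟩, rfl⟩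
  exact Nat.sInf_mem hne

omit [Fintype V] in
lemma dominationNumber_le {G : SimpleGraph V} {D : Finset V} (hD : IsDominatingSet G D) :
    dominationNumber G ≤ D.card := Nat.sInf_le ⟨D, hD, rfl⟩

lemma realDominationNumber_le_dominationNumber (G : SimpleGraph V) :
    realDominationNumber G ≤ ((dominationNumber G : ℕ) : EReal) := by
  classical
  obtain ⟨D, hD, hcard⟩ := exists_dominatingSet G
  have hdom : IsRealDominating G (fun v => if v ∈ D then (1 : ℝ) else 0) := by
    intro v
    obtain ⟨d, hdD, hdv⟩ := hD v
    rw [mass_eq]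
    have h1 : (1 : ℝ) = if d ∈ closedNbhd G v then (if d ∈ D then (1 : ℝ) else 0) else 0 := by
      simp [closedNbhd_symm.mp hdv, hdD]
    refine h1.le.trans ?_
    refine Finset.single_le_sum (f := fun u => if u ∈ closedNbhd G v then
      (if u ∈ D then (1 : ℝ) else 0) else 0) (fun u _ => ?_) (Finset.mem_univ d)
    split_ifs <;> norm_num
  refine (iInf_le (fun g : {f : V → ℝ // IsRealDominating G f} =>
    ((mass g.1 Set.univ : ℝ) : EReal)) ⟨_, hdom⟩).trans ?_
  have : mass (fun v => if v ∈ D then (1 : ℝ) else 0) Set.univ = (dominationNumber G : ℝ) := by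
    rw [mass_univ, ← hcard]
    simp
  dsimp only
  rw [this]
  exact le_of_eq rfl

/-- If there is no NERD-function, then the real domination number is `-∞`. -/
lemma realDominationNumber_eq_bot {G : SimpleGraph V} (h : ¬ ∃ f : V → ℝ, IsNERD G f) :
    realDominationNumber G = ⊥ := by
  classical
  -- a function `y` with `y(N[v]) ≥ 0` for all `v` and negative weight
  have hy : ∃ y : V → ℝ, (∀ v, 0 ≤ mass y (closedNbhd G v)) ∧ mass y Set.univ < 0 := by
    by_contra hcon
    push Not at hcon
    apply h
    let a : V → (V → ℝ) →ₗ[ℝ] ℝ := fun v =>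
      ∑ u, (if u ∈ closedNbhd G v then (1 : ℝ) else 0) • LinearMap.proj u
    let b : (V → ℝ) →ₗ[ℝ] ℝ := ∑ u, LinearMap.proj u
    have ha : ∀ v y, a v y = mass y (closedNbhd G v) := by
      intro v y
      simp only [a, mass_eq, LinearMap.sum_apply, LinearMap.smul_apply, LinearMap.proj_apply,
        smul_eq_mul]
      refine Finset.sum_congr rfl (fun u _ => ?_)
      split_ifs <;> simp
    have hb : ∀ y, b y = mass y Set.univ := by
      intro y
      simp only [b, mass_univ, LinearMap.sum_apply, LinearMap.proj_apply]
    obtain ⟨c, hc, hbc⟩ := Pool.Agent.Lib.FarkasLemma.farkas (Finset.univ : Finset V) a b (by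
      intro x hx
      rw [hb]
      exact hcon x (fun v => by rw [← ha]; exact hx v (Finset.mem_univ v)))
    refine ⟨c, hc, fun v => ?_⟩
    have h1 := congrArg (fun φ => φ (Pi.single v (1 : ℝ))) hbc
    simp only [LinearMap.sum_apply, LinearMap.smul_apply, smul_eq_mul, ha, hb] at h1
    rw [mass_univ] at h1
    simp only [Finset.sum_pi_single', Finset.mem_univ, if_true] at h1
    rw [h1, mass_eq]
    refine Finset.sum_congr rfl (fun u _ => ?_)
    rw [mass_eq]
    have h2 : ∑ x, (if x ∈ closedNbhd G u then (Pi.single v (1 : ℝ) : V → ℝ) x else 0) =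
        if v ∈ closedNbhd G u then 1 else 0 := by
      rw [Finset.sum_eq_single v]
      · simp
      · intro x _ hx
        simp [hx]
      · intro hv
        exact absurd (Finset.mem_univ v) hv
    rw [h2]
    by_cases hu : u ∈ closedNbhd G v
    · simp [hu, closedNbhd_symm.mp hu]
    · have : v ∉ closedNbhd G u := fun h' => hu (closedNbhd_symm.mp h')
      simp [hu, this]
  obtain ⟨y, hy1, hy2⟩ := hy
  set w : ℝ := mass y Set.univ with hw
  have hmass_add : ∀ (t : ℝ) (S : Set V), mass (fun v => 1 + t * y v) S =
      mass (fun _ => (1 : ℝ)) S + t * mass y S := by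
    intro t S
    rw [mass, mass, mass, Finset.mul_sum, ← Finset.sum_add_distrib]
  have hdom : ∀ t : ℝ, 0 ≤ t → IsRealDominating G (fun v => 1 + t * y v) := by
    intro t ht v
    rw [hmass_add]
    have h1 : (1 : ℝ) ≤ mass (fun _ => (1 : ℝ)) (closedNbhd G v) := by
      rw [mass_eq]
      have h1 : (1 : ℝ) = if v ∈ closedNbhd G v then (1 : ℝ) else 0 := by
        simp [self_mem_closedNbhd G v]
      refine h1.le.trans ?_
      refine Finset.single_le_sum (f := fun u => if u ∈ closedNbhd G v then (1 : ℝ) else 0)
        (fun u _ => ?_) (Finset.mem_univ v)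
      split_ifs <;> norm_num
    have h2 := mul_nonneg ht (hy1 v)
    linarith
  rw [realDominationNumber, iInf_eq_bot]
  intro b hb
  -- find a real number below `b`
  obtain ⟨r, hr⟩ : ∃ r : ℝ, (r : EReal) < b := by
    obtain ⟨r, _, hr⟩ := EReal.lt_iff_exists_real_btwn.mp hb
    exact ⟨r, hr⟩
  set N : ℝ := mass (fun _ => (1 : ℝ)) (Set.univ : Set V) with hN
  have hwneg : w < 0 := hy2
  set t : ℝ := max 0 ((r - N) / w) with ht
  have ht0 : 0 ≤ t := le_max_left _ _
  refine ⟨⟨_, hdom t ht0⟩, lt_of_le_of_lt ?_ hr⟩
  refine EReal.coe_le_coe_iff.mpr ?_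
  dsimp only
  rw [hmass_add]
  have h3 : (r - N) / w ≤ t := le_max_right _ _
  have h4 : t * w ≤ (r - N) / w * w := mul_le_mul_of_nonpos_right h3 hwneg.le
  rw [div_mul_cancel₀ _ hwneg.ne] at h4
  linarith

/-- The main step: in a chordal graph, a NERD-function `f` yields a dominating set of cardinality
at most `w(f)`. -/
lemma exists_dominatingSet_of_nerd {G : SimpleGraph V} (hG : IsChordal G) {f : V → ℝ}
    (hf : IsNERD G f) : ∃ D : Finset V, IsDominatingSet G D ∧ (D.card : ℝ) ≤ mass f Set.univ := by
  classical
  obtain ⟨hf0, hf1⟩ := hf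
  obtain ⟨σ, hσinj', hσ'⟩ :=
    Pool.Agent.Lib.ChordalGraph.exists_elimination_order G hG (Finset.univ : Finset V)
  have hσinj : Function.Injective σ := by
    intro x y hxy
    exact hσinj' (by simp) (by simp) hxy
  have hσ : ∀ v x y, G.Adj v x → G.Adj v y → σ x < σ v → σ y < σ v → x ≠ y → G.Adj x y :=
    fun v x y => hσ' v (Finset.mem_univ _) x (Finset.mem_univ _) y (Finset.mem_univ _)
  -- the support and closed neighbourhoods in it
  set X : Set V := {v | f v ≠ 0} with hX
  set NX : V → Set V := fun v => closedNbhd G v ∩ X with hNX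
  have hNXmass : ∀ v, mass f (NX v) = 1 := by
    intro v
    rw [hNX]
    dsimp only
    rw [hX, mass_inter_support, hf1]
  -- nested closed neighbourhoods in the support are equal
  have hnest : ∀ S T : Set V, T ⊆ X → S ⊆ T → mass f S = 1 → mass f T = 1 → S = T := by
    intro S T hTX hST hS hT
    refine Set.Subset.antisymm hST (fun x hx => ?_)
    by_contra hxS
    exact hTX hx (eq_zero_of_mass_eq hf0 hST (hS.trans hT.symm) hx hxS)
  -- adjacency is transitive on the support
  have hP : ∀ x ∈ X, ∀ u ∈ NX x, NX u = NX x := by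
    by_contra hcon
    push Not at hcon
    set B : Finset V := Finset.univ.filter (fun x => x ∈ X ∧ ∃ u ∈ NX x, NX u ≠ NX x) with hB
    have hBne : B.Nonempty := by
      obtain ⟨x, hxX, hx⟩ := hcon
      exact ⟨x, by simp only [hB, Finset.mem_filter, Finset.mem_univ, true_and]; exact ⟨hxX, hx⟩⟩
    obtain ⟨s, hsB, hsmax⟩ := B.exists_max_image σ hBne
    simp only [hB, Finset.mem_filter, Finset.mem_univ, true_and] at hsB
    obtain ⟨hsX, u₀, hu₀, hu₀ne⟩ := hsB
    -- `B` is closed under taking neighbours in the support
    have hclosed : ∀ u ∈ NX s, u ∈ B := by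
      intro u hu
      by_contra huB
      simp only [hB, Finset.mem_filter, Finset.mem_univ, true_and, not_and] at huB
      have huB' := huB hu.2
      push Not at huB'
      have h1 : NX s = NX u := huB' s ⟨closedNbhd_symm.mp hu.1, hsX⟩
      exact hu₀ne ((huB' u₀ (h1 ▸ hu₀)).trans h1.symm)
    have hlt : ∀ u ∈ NX s, u ≠ s → G.Adj s u ∧ σ u < σ s := by
      intro u hu hus
      refine ⟨?_, ?_⟩
      · rcases hu.1 with h | h
        · exact absurd h hus
        · exact h
      · exact lt_of_le_of_ne (hsmax u (hclosed u hu)) (fun h => hus (hσinj h))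
    have hclique : ∀ u ∈ NX s, NX s ⊆ NX u := by
      intro u hu y hy
      refine ⟨?_, hy.2⟩
      by_cases hyu : y = u
      · exact Or.inl hyu
      right
      by_cases hus : u = s
      · subst hus
        exact (hlt y hy hyu).1
      by_cases hys : y = s
      · subst hys
        exact (hlt u hu hus).1.symm
      obtain ⟨h1, h2⟩ := hlt u hu hus
      obtain ⟨h3, h4⟩ := hlt y hy hys
      exact hσ s u y h1 h3 h2 h4 (Ne.symm hyu)
    exact hu₀ne (hnest (NX s) (NX u₀) Set.inter_subset_right (hclique u₀ hu₀) (hNXmass s)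
      (hNXmass u₀)).symm
  -- the set of the lowest elements of the cliques
  set D : Finset V := Finset.univ.filter (fun x => x ∈ X ∧ ∀ y ∈ NX x, σ x ≤ σ y) with hD
  have hDX : ∀ d ∈ D, d ∈ X := by
    intro d hd
    simp only [hD, Finset.mem_filter, Finset.mem_univ, true_and] at hd
    exact hd.1
  have hDmin : ∀ d ∈ D, ∀ y ∈ NX d, σ d ≤ σ y := by
    intro d hd
    simp only [hD, Finset.mem_filter, Finset.mem_univ, true_and] at hd
    exact hd.2
  -- every clique has a lowest element
  have hDex : ∀ x ∈ X, ∃ d ∈ D, d ∈ NX x := by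
    intro x hx
    have hne : (Finset.univ.filter (fun u => u ∈ NX x)).Nonempty :=
      ⟨x, by simp only [Finset.mem_filter, Finset.mem_univ, true_and]
             exact ⟨self_mem_closedNbhd G x, hx⟩⟩
    obtain ⟨m, hm, hmmin⟩ := (Finset.univ.filter (fun u => u ∈ NX x)).exists_min_image σ hne
    simp only [Finset.mem_filter, Finset.mem_univ, true_and] at hm hmmin
    refine ⟨m, ?_, hm⟩
    simp only [hD, Finset.mem_filter, Finset.mem_univ, true_and]
    refine ⟨hm.2, fun y hy => hmmin y ?_⟩
    rw [← hP x hx m hm]
    exact hy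
  refine ⟨D, ?_, ?_⟩
  · -- `D` is dominating
    intro v
    by_cases hvX : v ∈ X
    · obtain ⟨d, hdD, hdv⟩ := hDex v hvX
      exact ⟨d, hdD, closedNbhd_symm.mp hdv.1⟩
    · by_contra hcon
      push Not at hcon
      -- all neighbours of `v` in the support are lower than `v`
      have hlow : ∀ a ∈ NX v, G.Adj v a ∧ σ a < σ v := by
        intro a ha
        have hav : a ≠ v := fun h => hvX (h ▸ ha.2)
        have hadj : G.Adj v a := by
          rcases ha.1 with h | h
          · exact absurd h hav
          · exact h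
        refine ⟨hadj, ?_⟩
        by_contra hle
        have hlt : σ v < σ a := lt_of_le_of_ne (not_lt.mp hle) (fun h => hav (hσinj h).symm)
        obtain ⟨m, hmD, hma⟩ := hDex a ha.2
        have hvm := hcon m hmD
        have hma' : m ≠ a := by
          rintro rfl
          exact hvm (Or.inr hadj.symm)
        have ham : G.Adj a m := by
          rcases hma.1 with h | h
          · exact absurd h hma'
          · exact h
        have hmlt : σ m < σ a := by
          refine lt_of_le_of_ne ?_ (fun h => hma' (hσinj h))
          exact hDmin m hmD a ⟨closedNbhd_symm.mp hma.1, ha.2⟩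
        have hvm' : v ≠ m := by
          rintro rfl
          exact hvm (Or.inl rfl)
        exact hvm (Or.inr (hσ a v m hadj.symm ham hlt hmlt hvm').symm)
      have hne : (NX v).Nonempty := by
        by_contra hempty
        rw [Set.not_nonempty_iff_eq_empty] at hempty
        have h1 := hNXmass v
        rw [hempty, mass] at h1
        simp at h1
      obtain ⟨a, ha⟩ := hne
      have hsub : NX v ⊆ NX a := by
        intro b hb
        refine ⟨?_, hb.2⟩
        by_cases hba : b = a
        · exact Or.inl hba
        right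
        obtain ⟨h1, h2⟩ := hlow a ha
        obtain ⟨h3, h4⟩ := hlow b hb
        exact hσ v a b h1 h3 h2 h4 (Ne.symm hba)
      have heq : NX v = NX a :=
        hnest _ _ Set.inter_subset_right hsub (hNXmass v) (hNXmass a)
      obtain ⟨m, hmD, hma⟩ := hDex a ha.2
      have hmv : m ∈ NX v := heq ▸ hma
      exact hcon m hmD (closedNbhd_symm.mp hmv.1)
  · -- the cardinality of `D`
    have hcount := double_count G f (fun v => if v ∈ D then (1 : ℝ) else 0)
    have h1 : ∑ v, (if v ∈ D then (1 : ℝ) else 0) * mass f (closedNbhd G v) = (D.card : ℝ) := by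
      simp [hf1]
    rw [h1] at hcount
    rw [hcount, mass_univ]
    refine Finset.sum_le_sum (fun u _ => ?_)
    by_cases hu : f u = 0
    · simp [hu]
    · have huX : u ∈ X := hu
      have h2 : mass (fun v => if v ∈ D then (1 : ℝ) else 0) (closedNbhd G u) ≤ 1 := by
        obtain ⟨d, hdD, hdu⟩ := hDex u huX
        rw [mass_eq, Finset.sum_eq_single d]
        · simp [hdu.1, hdD]
        · intro d' _ hd'
          by_cases h3 : d' ∈ closedNbhd G u
          · by_cases h4 : d' ∈ D
            · exfalso
              have h5 : d' ∈ NX u := ⟨h3, hDX d' h4⟩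
              have h6 : NX d' = NX u := hP u huX d' h5
              have h7 : NX d = NX u := hP u huX d hdu
              have h8 : d' ∈ NX d := h7 ▸ h5
              have h9 : d ∈ NX d' := h6 ▸ hdu
              exact hd' (hσinj (le_antisymm (hDmin d' h4 d h9) (hDmin d hdD d' h8)))
            · simp [h4]
          · simp [h3]
        · intro h
          exact absurd (Finset.mem_univ d) h
      calc f u * mass (fun v => if v ∈ D then (1 : ℝ) else 0) (closedNbhd G u) ≤ f u * 1 :=
            mul_le_mul_of_nonneg_left h2 (hf0 u)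
        _ = f u := mul_one _

end Proofs

/-- **Henning and Kubicki problem.** For every (finite) chordal graph `G`, the real domination number
of `G` equals the domination number of `G` if and only if `G` has a NERD-function. -/
theorem result {V : Type*} [Fintype V] (G : SimpleGraph V) (hG : IsChordal G) :
    realDominationNumber G = ((dominationNumber G : ℕ) : EReal) ↔ ∃ f : V → ℝ, IsNERD G f := by
  constructor
  · intro h
    by_contra hcon
    rw [realDominationNumber_eq_bot hcon] at h
    exact EReal.bot_ne_coe (dominationNumber G : ℝ) h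
  · rintro ⟨f, hf⟩
    apply le_antisymm (realDominationNumber_le_dominationNumber G)
    rw [realDominationNumber_eq hf]
    obtain ⟨D, hD, hcard⟩ := exists_dominatingSet_of_nerd hG hf
    have h1 : (dominationNumber G : ℝ) ≤ mass f Set.univ :=
      le_trans (by exact_mod_cast dominationNumber_le hD) hcard
    exact EReal.coe_le_coe_iff.mpr h1

end Pool.Agent.Results.MP_24e13c_co.ChordalNERD
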